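import Pool.Agent.V1187.Beur6

/-!
# Intermediate upper Beurling densities of spectra of `μ_{p,q}`

For all admissible `p, q` and each `d` between `0` and `M_{p,q}` there is a spectrum of `μ_{p,q}` whose
upper `s`-Beurling density is `d`.
-/

set_option autoImplicit false

open MeasureTheory

namespace Pool.Agent.Results.MP_5269d5_an.IntermediateDensity

open Pool.Agent.V1187.BD

/-- Let `q ≥ 2`, `q ∣ p`, `p > q`, let `μ` be the self-similar probability measure
`μ = (1/q) ∑_{a<q} μ ∘ f_a⁻¹`, `f_a (x) = (x + (p/q) a) / p`, and `s = log q / log p`. For every real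
`d` with `0 ≤ d ≤ (2 (p - 1) / (q - 1)) ^ s` there is a spectrum `L` of `μ` with `D_s^+ (L) = d`. -/
theorem result (p q : ℕ) (hq : 2 ≤ q) (hqp : q ∣ p) (hlt : q < p) (μ : Measure ℝ)
    [IsProbabilityMeasure μ] (hμ : SelfSim p q μ) (d : ℝ) (hd0 : 0 ≤ d)
    (hd1 : d ≤ (2 * ((p : ℝ) - 1) / (q - 1)) ^ (Real.log q / Real.log p)) :
    ∃ L : Set ℝ, IsSpectrum μ L ∧ upperDensity (Real.log q / Real.log p) L = ENNReal.ofReal d :=
  intermediate hq hqp hlt hμ hd0 hd1

end Pool.Agent.Results.MP_5269d5_an.IntermediateDensity
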